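import Mathlib

set_option autoImplicit false
set_option linter.unusedSectionVars false

namespace Pool.Agent.Helper67

open Finset

section chernoff

variable {Γ : Type*} [Fintype Γ] [DecidableEq Γ] [Nonempty Γ]

lemma sum_prod_eq_pow (t : ℕ) (h : Γ → ℝ) :
    ∑ g : Fin t → Γ, ∏ i, h (g i) = (∑ γ, h γ) ^ t := by
  rw [Fintype.sum_pow]

/-- number of indices landing in `T` -/
def cnt {t : ℕ} (T : Finset Γ) (g : Fin t → Γ) : ℕ := (univ.filter (fun i => g i ∈ T)).card

lemma exp_cnt {t : ℕ} (T : Finset Γ) (g : Fin t → Γ) (l : ℝ) :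
    Real.exp (l * cnt T g) = ∏ i, (if g i ∈ T then Real.exp l else 1) := by
  rw [prod_ite, prod_const, prod_const_one, mul_one, cnt, mul_comm, Real.exp_nat_mul]

lemma sum_exp_cnt (T : Finset Γ) (t : ℕ) (p l : ℝ) (hp : (T.card : ℝ) = p * Fintype.card Γ) :
    ∑ g : Fin t → Γ, Real.exp (l * cnt T g)
      ≤ Real.exp (t * (p * (Real.exp l - 1))) * (Fintype.card Γ : ℝ) ^ t := by
  simp_rw [exp_cnt]
  rw [sum_prod_eq_pow t (fun γ => if γ ∈ T then Real.exp l else 1)]
  have h1 : ∑ γ : Γ, (if γ ∈ T then Real.exp l else 1)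
      = Fintype.card Γ * (1 + p * (Real.exp l - 1)) := by
    have : ∀ γ : Γ, (if γ ∈ T then Real.exp l else 1)
        = 1 + (if γ ∈ T then (Real.exp l - 1) else 0) := by
      intro γ; split_ifs <;> ring
    simp_rw [this]
    rw [sum_add_distrib, ← sum_filter, sum_const, sum_const, nsmul_eq_mul, nsmul_eq_mul]
    have h2 : (univ.filter (fun γ => γ ∈ T)) = T := by ext; simp
    rw [h2, hp, card_univ]
    ring
  rw [h1, mul_pow, mul_comm]
  apply mul_le_mul_of_nonneg_right _ (by positivity)
  rw [Real.exp_nat_mul]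
  have h0 : 0 ≤ 1 + p * (Real.exp l - 1) := by
    have : 0 ≤ ∑ γ : Γ, (if γ ∈ T then Real.exp l else 1) := by
      apply sum_nonneg
      intro γ _
      split_ifs
      · exact (Real.exp_pos _).le
      · norm_num
    rw [h1] at this
    have hc' : (0 : ℝ) < Fintype.card Γ := by exact_mod_cast Fintype.card_pos
    exact nonneg_of_mul_nonneg_right this hc'
  gcongr
  have := Real.add_one_le_exp (p * (Real.exp l - 1))
  linarith

lemma chernoff_upper (T : Finset Γ) (t : ℕ) (p η : ℝ) (hp : (T.card : ℝ) = p * Fintype.card Γ)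
    (hp0 : 0 ≤ p) (hη : 0 < η) (hη1 : η ≤ 1) :
    ((univ.filter (fun g : Fin t → Γ => (1 + η) * (t * p) < cnt T g)).card : ℝ)
      ≤ Real.exp (-(t * p * η ^ 2 / 4)) * (Fintype.card Γ : ℝ) ^ t := by
  have h1 := sum_exp_cnt T t p (η / 2) hp
  have h2 : ((univ.filter (fun g : Fin t → Γ => (1 + η) * (t * p) < cnt T g)).card : ℝ)
      * Real.exp (η / 2 * ((1 + η) * (t * p))) ≤ ∑ g : Fin t → Γ, Real.exp (η / 2 * cnt T g) := by
    calc _ = ∑ g ∈ univ.filter (fun g : Fin t → Γ => (1 + η) * (t * p) < cnt T g),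
            Real.exp (η / 2 * ((1 + η) * (t * p))) := by rw [sum_const, nsmul_eq_mul]
      _ ≤ ∑ g ∈ univ.filter (fun g : Fin t → Γ => (1 + η) * (t * p) < cnt T g),
            Real.exp (η / 2 * cnt T g) := by
          apply sum_le_sum
          intro g hg
          rw [mem_filter] at hg
          apply Real.exp_le_exp.2
          apply mul_le_mul_of_nonneg_left hg.2.le (by positivity)
      _ ≤ _ := sum_le_univ_sum_of_nonneg fun g => (Real.exp_pos _).le
  have h3 : Real.exp (η / 2) - 1 ≤ η / 2 + (η / 2) ^ 2 := by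
    have := Real.abs_exp_sub_one_sub_id_le (x := η / 2) (by rw [abs_of_pos (by positivity)]; linarith)
    have := (abs_le.1 this).2
    linarith
  have h4 := h2.trans h1
  have h5 : ((univ.filter (fun g : Fin t → Γ => (1 + η) * (t * p) < cnt T g)).card : ℝ)
      ≤ Real.exp (t * (p * (Real.exp (η / 2) - 1))) * (Fintype.card Γ : ℝ) ^ t
        * Real.exp (-(η / 2 * ((1 + η) * (t * p)))) := by
    rw [Real.exp_neg, ← div_eq_mul_inv, le_div_iff₀ (Real.exp_pos _)]
    exact h4
  refine h5.trans ?_
  have h6 : Real.exp (t * (p * (Real.exp (η / 2) - 1))) * (Fintype.card Γ : ℝ) ^ t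
        * Real.exp (-(η / 2 * ((1 + η) * (t * p))))
      = Real.exp (t * (p * (Real.exp (η / 2) - 1)) + -(η / 2 * ((1 + η) * (t * p))))
        * (Fintype.card Γ : ℝ) ^ t := by
    rw [Real.exp_add]; ring
  rw [h6]
  apply mul_le_mul_of_nonneg_right _ (by positivity)
  apply Real.exp_le_exp.2
  have htp : 0 ≤ (t : ℝ) * p := by positivity
  have : t * (p * (Real.exp (η / 2) - 1)) ≤ (t * p) * (η / 2 + (η / 2) ^ 2) := by
    rw [← mul_assoc]
    exact mul_le_mul_of_nonneg_left h3 htp
  nlinarith

lemma chernoff_lower (T : Finset Γ) (t : ℕ) (p η : ℝ) (hp : (T.card : ℝ) = p * Fintype.card Γ)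
    (hp0 : 0 ≤ p) (hη : 0 < η) (hη1 : η ≤ 1) :
    ((univ.filter (fun g : Fin t → Γ => (cnt T g : ℝ) < (1 - η) * (t * p))).card : ℝ)
      ≤ Real.exp (-(t * p * η ^ 2 / 4)) * (Fintype.card Γ : ℝ) ^ t := by
  have h1 := sum_exp_cnt T t p (-(η / 2)) hp
  have h2 : ((univ.filter (fun g : Fin t → Γ => (cnt T g : ℝ) < (1 - η) * (t * p))).card : ℝ)
      * Real.exp (-(η / 2) * ((1 - η) * (t * p)))
        ≤ ∑ g : Fin t → Γ, Real.exp (-(η / 2) * cnt T g) := by
    calc _ = ∑ g ∈ univ.filter (fun g : Fin t → Γ => (cnt T g : ℝ) < (1 - η) * (t * p)),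
            Real.exp (-(η / 2) * ((1 - η) * (t * p))) := by rw [sum_const, nsmul_eq_mul]
      _ ≤ ∑ g ∈ univ.filter (fun g : Fin t → Γ => (cnt T g : ℝ) < (1 - η) * (t * p)),
            Real.exp (-(η / 2) * cnt T g) := by
          apply sum_le_sum
          intro g hg
          rw [mem_filter] at hg
          apply Real.exp_le_exp.2
          have := hg.2
          nlinarith
      _ ≤ _ := sum_le_univ_sum_of_nonneg fun g => (Real.exp_pos _).le
  have h3 : Real.exp (-(η / 2)) - 1 ≤ -(η / 2) + (η / 2) ^ 2 := by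
    have := Real.abs_exp_sub_one_sub_id_le (x := -(η / 2))
      (by rw [abs_neg, abs_of_pos (by positivity)]; linarith)
    have := (abs_le.1 this).2
    nlinarith
  have h4 := h2.trans h1
  have h5 : ((univ.filter (fun g : Fin t → Γ => (cnt T g : ℝ) < (1 - η) * (t * p))).card : ℝ)
      ≤ Real.exp (t * (p * (Real.exp (-(η / 2)) - 1))) * (Fintype.card Γ : ℝ) ^ t
        * Real.exp (-(-(η / 2) * ((1 - η) * (t * p)))) := by
    rw [Real.exp_neg (-(η / 2) * ((1 - η) * (t * p))), ← div_eq_mul_inv,
      le_div_iff₀ (Real.exp_pos _)]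
    exact h4
  refine h5.trans ?_
  have h6 : Real.exp (t * (p * (Real.exp (-(η / 2)) - 1))) * (Fintype.card Γ : ℝ) ^ t
        * Real.exp (-(-(η / 2) * ((1 - η) * (t * p))))
      = Real.exp (t * (p * (Real.exp (-(η / 2)) - 1)) + -(-(η / 2) * ((1 - η) * (t * p))))
        * (Fintype.card Γ : ℝ) ^ t := by
    rw [Real.exp_add]; ring
  rw [h6]
  apply mul_le_mul_of_nonneg_right _ (by positivity)
  apply Real.exp_le_exp.2
  have htp : 0 ≤ (t : ℝ) * p := by positivity
  have : t * (p * (Real.exp (-(η / 2)) - 1)) ≤ (t * p) * (-(η / 2) + (η / 2) ^ 2) := by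
    rw [← mul_assoc]
    exact mul_le_mul_of_nonneg_left h3 htp
  nlinarith

end chernoff

section growth

variable {Γ Ω : Type*} [Fintype Γ] [DecidableEq Γ] [Nonempty Γ] [Fintype Ω] [DecidableEq Ω]

/-- the part of `R` covered by the sets `N (g i)` -/
def cov {t : ℕ} (N : Γ → Finset Ω) (R : Finset Ω) (g : Fin t → Γ) : Finset Ω :=
  R.filter (fun x => ∃ i, x ∈ N (g i))

lemma growth_potential (N : Γ → Finset Ω) (R : Finset Ω) (m ω s : ℝ) (hm : 0 < m) (hω : 0 < ω)
    (hNm : ∀ γ, ((N γ).card : ℝ) ≤ m)
    (hN : ∀ R' : Finset Ω, ∑ γ : Γ, ((N γ ∩ R').card : ℝ) = Fintype.card Γ * (m * R'.card / ω))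
    (hs : s ≤ R.card / 2) (hR : (R.card : ℝ) ≤ ω) (t : ℕ) :
    ∑ g : Fin t → Γ, (if ((cov N R g).card : ℝ) < s then Real.exp (-((cov N R g).card / m)) else 0)
      ≤ (Fintype.card Γ * (1 - R.card / (4 * ω))) ^ t := by
  have hfac : 0 ≤ 1 - (R.card : ℝ) / (4 * ω) := by
    have : (R.card : ℝ) / (4 * ω) ≤ 1 := by
      rw [div_le_one (by positivity)]; linarith
    linarith
  induction t with
  | zero =>
    rw [pow_zero, Fintype.sum_unique]
    split_ifs
    · apply Real.exp_le_one_iff.2
      have : 0 ≤ ((cov N R (default : Fin 0 → Γ)).card : ℝ) / m := by positivity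
      linarith
    · norm_num
  | succ t ih =>
    have hequiv : ∑ g : Fin (t + 1) → Γ,
        (if ((cov N R g).card : ℝ) < s then Real.exp (-((cov N R g).card / m)) else 0)
        = ∑ g' : Fin t → Γ, ∑ γ : Γ,
        (if ((cov N R (Fin.cons γ g' : Fin (t + 1) → Γ)).card : ℝ) < s
          then Real.exp (-((cov N R (Fin.cons γ g' : Fin (t + 1) → Γ)).card / m)) else 0) := by
      rw [sum_comm, ← Fintype.sum_prod_type']
      exact (Fintype.sum_equiv (Fin.consEquiv (fun _ : Fin (t + 1) => Γ)) _ _
        (fun x => rfl)).symm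
    rw [hequiv]
    have step : ∀ g' : Fin t → Γ, ∑ γ : Γ,
        (if ((cov N R (Fin.cons γ g' : Fin (t + 1) → Γ)).card : ℝ) < s
          then Real.exp (-((cov N R (Fin.cons γ g' : Fin (t + 1) → Γ)).card / m)) else 0)
        ≤ (if ((cov N R g').card : ℝ) < s then Real.exp (-((cov N R g').card / m)) else 0)
          * (Fintype.card Γ * (1 - R.card / (4 * ω))) := by
      intro g'
      set U := cov N R g' with hU
      have hUR : U ⊆ R := filter_subset _ _
      have hcard : ∀ γ, ((cov N R (Fin.cons γ g' : Fin (t + 1) → Γ)).card : ℝ)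
          = U.card + (N γ ∩ (R \ U)).card := by
        intro γ
        have hdisj : Disjoint U (N γ ∩ (R \ U)) := by
          rw [Finset.disjoint_left]
          intro x hx hx'
          rw [mem_inter, mem_sdiff] at hx'
          exact hx'.2.2 hx
        have hunion : cov N R (Fin.cons γ g' : Fin (t + 1) → Γ) = U ∪ (N γ ∩ (R \ U)) := by
          ext x
          simp only [cov, hU, mem_filter, mem_union, mem_inter, mem_sdiff, Fin.exists_fin_succ,
            Fin.cons_zero, Fin.cons_succ]
          tauto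
        rw [hunion, card_union_of_disjoint hdisj]
        push_cast
        ring
      by_cases hUs : (U.card : ℝ) < s
      · rw [if_pos hUs]
        have h1 : ∀ γ, (if ((cov N R (Fin.cons γ g' : Fin (t + 1) → Γ)).card : ℝ) < s
          then Real.exp (-((cov N R (Fin.cons γ g' : Fin (t + 1) → Γ)).card / m)) else 0)
          ≤ Real.exp (-(U.card / m)) * (1 - (N γ ∩ (R \ U)).card / (2 * m)) := by
          intro γ
          have hY0 : (0 : ℝ) ≤ (N γ ∩ (R \ U)).card := by positivity
          have hYm : ((N γ ∩ (R \ U)).card : ℝ) ≤ m := by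
            refine le_trans ?_ (hNm γ)
            exact_mod_cast card_le_card inter_subset_left
          have hy : 0 ≤ 1 - ((N γ ∩ (R \ U)).card : ℝ) / (2 * m) := by
            have : ((N γ ∩ (R \ U)).card : ℝ) / (2 * m) ≤ 1 := by
              rw [div_le_one (by positivity)]; linarith
            linarith
          split_ifs
          · rw [hcard γ]
            have e1 : -(((U.card : ℝ) + (N γ ∩ (R \ U)).card) / m)
                = -(U.card / m) + -((N γ ∩ (R \ U)).card / m) := by ring
            rw [e1, Real.exp_add]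
            apply mul_le_mul_of_nonneg_left _ (Real.exp_pos _).le
            set y := ((N γ ∩ (R \ U)).card : ℝ) / m with hy_def
            have hy0 : 0 ≤ y := by positivity
            have hy1 : y ≤ 1 := by rw [hy_def, div_le_one hm]; exact hYm
            have e2 : ((N γ ∩ (R \ U)).card : ℝ) / (2 * m) = y / 2 := by
              rw [hy_def]; field_simp
            rw [e2]
            -- exp(-y) ≤ 1 - y/2 on [0,1]
            have e3 := convexOn_exp.2 (Set.mem_univ (0 : ℝ)) (Set.mem_univ (-1 : ℝ))
              (sub_nonneg.2 hy1) hy0 (by ring)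
            simp only [smul_eq_mul, mul_zero, zero_add, Real.exp_zero, mul_one, mul_neg] at e3
            have e4 : Real.exp (-1) ≤ 1 / 2 := by
              rw [Real.exp_neg, ← one_div]
              apply one_div_le_one_div_of_le (by norm_num)
              have := Real.add_one_le_exp (1 : ℝ)
              linarith
            have e5 := mul_le_mul_of_nonneg_left e4 hy0
            linarith
          · exact mul_nonneg (Real.exp_pos _).le hy
        calc _ ≤ ∑ γ : Γ, Real.exp (-(U.card / m)) * (1 - (N γ ∩ (R \ U)).card / (2 * m)) :=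
              sum_le_sum fun γ _ => h1 γ
          _ = Real.exp (-(U.card / m)) * (Fintype.card Γ * (1 - (R \ U).card / (2 * ω))) := by
              rw [← mul_sum, sum_sub_distrib, sum_const, nsmul_eq_mul, mul_one, card_univ]
              rw [← sum_div, hN]
              congr 1
              field_simp
          _ ≤ _ := by
              apply mul_le_mul_of_nonneg_left _ (Real.exp_pos _).le
              apply mul_le_mul_of_nonneg_left _ (by positivity)
              have hsd : ((R \ U).card : ℝ) = R.card - U.card := by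
                rw [card_sdiff_of_subset hUR, Nat.cast_sub (card_le_card hUR)]
              have : (R.card : ℝ) / (4 * ω) ≤ (R \ U).card / (2 * ω) := by
                rw [div_le_div_iff₀ (by positivity) (by positivity), hsd]
                nlinarith
              linarith
      · rw [if_neg hUs, zero_mul]
        apply le_of_eq
        apply sum_eq_zero
        intro γ _
        rw [if_neg]
        rw [hcard γ]
        have : (0 : ℝ) ≤ (N γ ∩ (R \ U)).card := by positivity
        linarith
    calc _ ≤ ∑ g' : Fin t → Γ,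
          (if ((cov N R g').card : ℝ) < s then Real.exp (-((cov N R g').card / m)) else 0)
          * (Fintype.card Γ * (1 - R.card / (4 * ω))) := sum_le_sum fun g' _ => step g'
      _ = (∑ g' : Fin t → Γ,
          (if ((cov N R g').card : ℝ) < s then Real.exp (-((cov N R g').card / m)) else 0))
          * (Fintype.card Γ * (1 - R.card / (4 * ω))) := by rw [sum_mul]
      _ ≤ _ := by
          rw [pow_succ]
          apply mul_le_mul_of_nonneg_right ih
          positivity

lemma growth (N : Γ → Finset Ω) (R : Finset Ω) (m ω s : ℝ) (hm : 0 < m) (hω : 0 < ω)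
    (hNm : ∀ γ, ((N γ).card : ℝ) ≤ m)
    (hN : ∀ R' : Finset Ω, ∑ γ : Γ, ((N γ ∩ R').card : ℝ) = Fintype.card Γ * (m * R'.card / ω))
    (hs : s ≤ R.card / 2) (hR : (R.card : ℝ) ≤ ω) (t : ℕ) :
    ((univ.filter (fun g : Fin t → Γ => ((cov N R g).card : ℝ) < s)).card : ℝ)
      ≤ Real.exp (s / m - t * (R.card / (4 * ω))) * (Fintype.card Γ : ℝ) ^ t := by
  have hpot := growth_potential N R m ω s hm hω hNm hN hs hR t
  have h1 : ((univ.filter (fun g : Fin t → Γ => ((cov N R g).card : ℝ) < s)).card : ℝ)
      * Real.exp (-(s / m))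
      ≤ ∑ g : Fin t → Γ,
        (if ((cov N R g).card : ℝ) < s then Real.exp (-((cov N R g).card / m)) else 0) := by
    rw [← sum_filter]
    calc _ = ∑ g ∈ univ.filter (fun g : Fin t → Γ => ((cov N R g).card : ℝ) < s),
            Real.exp (-(s / m)) := by rw [sum_const, nsmul_eq_mul]
      _ ≤ _ := by
          apply sum_le_sum
          intro g hg
          rw [mem_filter] at hg
          apply Real.exp_le_exp.2
          have := div_le_div_of_nonneg_right hg.2.le hm.le
          linarith
  have h2 : (Fintype.card Γ * (1 - (R.card : ℝ) / (4 * ω))) ^ t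
      ≤ (Fintype.card Γ : ℝ) ^ t * Real.exp (-(t * (R.card / (4 * ω)))) := by
    rw [mul_pow]
    apply mul_le_mul_of_nonneg_left _ (by positivity)
    have e1 : Real.exp (-(t * ((R.card : ℝ) / (4 * ω)))) = Real.exp (-((R.card : ℝ) / (4 * ω))) ^ t := by
      rw [← Real.exp_nat_mul]; ring_nf
    rw [e1]
    have hfac : 0 ≤ 1 - (R.card : ℝ) / (4 * ω) := by
      have : (R.card : ℝ) / (4 * ω) ≤ 1 := by
        rw [div_le_one (by positivity)]; linarith
      linarith
    gcongr
    have := Real.add_one_le_exp (-((R.card : ℝ) / (4 * ω)))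
    linarith
  have h3 := h1.trans (hpot.trans h2)
  rw [Real.exp_neg, ← div_eq_mul_inv, div_le_iff₀ (Real.exp_pos _)] at h3
  refine h3.trans (le_of_eq ?_)
  rw [sub_eq_add_neg, Real.exp_add]
  ring

end growth

end Pool.Agent.Helper67
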