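import Mathlib

set_option autoImplicit false

namespace Pool.Agent.Helper67

open Finset

/-- Deterministic Hall-type lemma: a nonnegative square matrix with nearly constant row and
column sums, in which all entries of `w wᵀ w` are bounded below, has a transversal in its
support. -/
lemma hall_of_expansion {α β : Type*} [Fintype α] [Fintype β] [DecidableEq α] [DecidableEq β]
    (hcard : Fintype.card α = Fintype.card β) (w : α → β → ℝ) (hw : ∀ a b, 0 ≤ w a b)
    (D η P : ℝ) (hη : 0 ≤ η) (hD : 0 < D) (hP0 : 0 ≤ P)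
    (hrl : ∀ a, (1 - η) * D ≤ ∑ b, w a b) (hru : ∀ a, ∑ b, w a b ≤ (1 + η) * D)
    (hcl : ∀ b, (1 - η) * D ≤ ∑ a, w a b) (hcu : ∀ b, ∑ a, w a b ≤ (1 + η) * D)
    (hP : ∀ a b, P ≤ ∑ b', ∑ a', w a b' * w a' b' * w a' b)
    (hbig : 4 * η * (1 + η) ^ 2 * D ^ 3 < P * Fintype.card α) :
    ∃ f : α → β, Function.Injective f ∧ ∀ a, w a (f a) ≠ 0 := by
  classical
  let N : α → Finset β := fun a => univ.filter (fun b => w a b ≠ 0)
  have key : ∀ s : Finset α, s.card ≤ (s.biUnion N).card := by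
    intro A
    by_contra hlt
    push Not at hlt
    set C := A.biUnion N with hC
    set F := Cᶜ with hF
    -- no edges between A and F
    have hAF : ∀ a ∈ A, ∀ b ∈ F, w a b = 0 := by
      intro a ha b hb
      by_contra hne
      have : b ∈ C := by
        rw [hC, mem_biUnion]
        exact ⟨a, ha, by simp [N, hne]⟩
      rw [hF, mem_compl] at hb
      exact hb this
    have hApos : 0 < A.card := by omega
    have hCle : C.card ≤ Fintype.card β := card_le_univ _
    have hAle : A.card ≤ Fintype.card α := card_le_univ _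
    have hFcard : F.card = Fintype.card β - C.card := by rw [hF, card_compl]
    have hAccard : (Aᶜ).card = Fintype.card α - A.card := by rw [card_compl]
    have hFpos : 0 < F.card := by omega
    have hAcF : (Aᶜ).card ≤ F.card := by omega
    -- splitting sums
    have split_b : ∀ f : β → ℝ, ∑ b, f b = ∑ b ∈ C, f b + ∑ b ∈ F, f b := by
      intro f
      rw [hF, Finset.sum_add_sum_compl]
    have split_a : ∀ f : α → ℝ, ∑ a, f a = ∑ a ∈ A, f a + ∑ a ∈ Aᶜ, f a := by
      intro f
      rw [Finset.sum_add_sum_compl]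
    set X := ∑ a ∈ Aᶜ, ∑ b ∈ C, w a b with hX
    have hX0 : 0 ≤ X := sum_nonneg fun a _ => sum_nonneg fun b _ => hw a b
    have hAC : ∑ a ∈ A, ∑ b, w a b = ∑ a ∈ A, ∑ b ∈ C, w a b := by
      refine sum_congr rfl fun a ha => ?_
      rw [split_b, sum_eq_zero (s := F) (fun b hb => hAF a ha b hb), add_zero]
    have hXA : X ≤ 2 * η * D * A.card := by
      have h1 : ∑ b ∈ C, ∑ a, w a b ≤ (1 + η) * D * C.card := by
        calc ∑ b ∈ C, ∑ a, w a b ≤ ∑ b ∈ C, (1 + η) * D := sum_le_sum fun b _ => hcu b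
          _ = (1 + η) * D * C.card := by rw [sum_const, nsmul_eq_mul, mul_comm]
      have h2 : (1 - η) * D * A.card ≤ ∑ a ∈ A, ∑ b, w a b := by
        calc (1 - η) * D * A.card = ∑ a ∈ A, (1 - η) * D := by
              rw [sum_const, nsmul_eq_mul, mul_comm]
          _ ≤ _ := sum_le_sum fun a _ => hrl a
      have h3 : ∑ b ∈ C, ∑ a, w a b = ∑ a ∈ A, ∑ b ∈ C, w a b + X := by
        rw [sum_comm, split_a]
      have h4 : (C.card : ℝ) ≤ A.card := by exact_mod_cast hlt.le
      have h5 : (1 + η) * D * C.card ≤ (1 + η) * D * A.card := by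
        apply mul_le_mul_of_nonneg_left h4; positivity
      rw [hAC] at h2
      nlinarith
    have hXF : X ≤ 2 * η * D * F.card := by
      have h1 : ∑ a ∈ Aᶜ, ∑ b, w a b ≤ (1 + η) * D * (Aᶜ).card := by
        calc ∑ a ∈ Aᶜ, ∑ b, w a b ≤ ∑ a ∈ Aᶜ, (1 + η) * D := sum_le_sum fun a _ => hru a
          _ = _ := by rw [sum_const, nsmul_eq_mul, mul_comm]
      have h2 : (1 - η) * D * F.card ≤ ∑ b ∈ F, ∑ a, w a b := by
        calc (1 - η) * D * F.card = ∑ b ∈ F, (1 - η) * D := by
              rw [sum_const, nsmul_eq_mul, mul_comm]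
          _ ≤ _ := sum_le_sum fun b _ => hcl b
      have h3 : ∑ b ∈ F, ∑ a, w a b = ∑ a ∈ Aᶜ, ∑ b ∈ F, w a b := by
        rw [sum_comm, split_a]
        rw [sum_eq_zero (s := A) (fun a ha => sum_eq_zero fun b hb => hAF a ha b hb), zero_add]
      have h4 : ∑ a ∈ Aᶜ, ∑ b, w a b = X + ∑ a ∈ Aᶜ, ∑ b ∈ F, w a b := by
        rw [hX, ← sum_add_distrib]
        exact sum_congr rfl fun a _ => split_b _
      have h5 : ((Aᶜ).card : ℝ) ≤ F.card := by exact_mod_cast hAcF
      have h6 : (1 + η) * D * (Aᶜ).card ≤ (1 + η) * D * F.card := by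
        apply mul_le_mul_of_nonneg_left h5; positivity
      nlinarith
    -- counting three-edge walks from A to F
    have hpaths : ∑ a ∈ A, ∑ b ∈ F, (∑ b', ∑ a', w a b' * w a' b' * w a' b)
        ≤ ((1 + η) * D) ^ 2 * X := by
      have h1 : ∀ a ∈ A, ∀ b ∈ F, (∑ b', ∑ a', w a b' * w a' b' * w a' b)
          = ∑ b' ∈ C, ∑ a' ∈ Aᶜ, w a b' * w a' b' * w a' b := by
        intro a ha b hb
        rw [split_b, sum_eq_zero (s := F), add_zero]
        · refine sum_congr rfl fun b' _ => ?_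
          rw [split_a, sum_eq_zero (s := A), zero_add]
          intro a' ha'
          rw [hAF a' ha' b hb, mul_zero]
        · intro b' hb'
          refine sum_eq_zero fun a' _ => ?_
          rw [hAF a ha b' hb', zero_mul, zero_mul]
      have h2 : ∑ a ∈ A, ∑ b ∈ F, (∑ b', ∑ a', w a b' * w a' b' * w a' b)
          = ∑ b' ∈ C, ∑ a' ∈ Aᶜ, (∑ a ∈ A, w a b') * w a' b' * (∑ b ∈ F, w a' b) := by
        calc ∑ a ∈ A, ∑ b ∈ F, (∑ b', ∑ a', w a b' * w a' b' * w a' b)
            = ∑ a ∈ A, ∑ b ∈ F, ∑ b' ∈ C, ∑ a' ∈ Aᶜ, w a b' * w a' b' * w a' b :=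
              sum_congr rfl fun a ha => sum_congr rfl fun b hb => h1 a ha b hb
          _ = ∑ a ∈ A, ∑ b' ∈ C, ∑ b ∈ F, ∑ a' ∈ Aᶜ, w a b' * w a' b' * w a' b :=
              sum_congr rfl fun a _ => sum_comm
          _ = ∑ b' ∈ C, ∑ a ∈ A, ∑ b ∈ F, ∑ a' ∈ Aᶜ, w a b' * w a' b' * w a' b := sum_comm
          _ = ∑ b' ∈ C, ∑ a ∈ A, ∑ a' ∈ Aᶜ, ∑ b ∈ F, w a b' * w a' b' * w a' b :=
              sum_congr rfl fun b' _ => sum_congr rfl fun a _ => sum_comm
          _ = ∑ b' ∈ C, ∑ a' ∈ Aᶜ, ∑ a ∈ A, ∑ b ∈ F, w a b' * w a' b' * w a' b :=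
              sum_congr rfl fun b' _ => sum_comm
          _ = _ := by
              refine sum_congr rfl fun b' _ => sum_congr rfl fun a' _ => ?_
              rw [sum_mul, sum_mul]
              refine sum_congr rfl fun a _ => ?_
              rw [mul_sum]
      rw [h2]
      have h3 : ∀ b' ∈ C, ∀ a' ∈ Aᶜ, (∑ a ∈ A, w a b') * w a' b' * (∑ b ∈ F, w a' b)
          ≤ ((1 + η) * D) ^ 2 * w a' b' := by
        intro b' _ a' _
        have e1 : ∑ a ∈ A, w a b' ≤ (1 + η) * D :=
          le_trans (sum_le_univ_sum_of_nonneg fun a => hw a b') (hcu b')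
        have e2 : ∑ b ∈ F, w a' b ≤ (1 + η) * D :=
          le_trans (sum_le_univ_sum_of_nonneg fun b => hw a' b) (hru a')
        have e1' : 0 ≤ ∑ a ∈ A, w a b' := sum_nonneg fun a _ => hw a b'
        have e2' : 0 ≤ ∑ b ∈ F, w a' b := sum_nonneg fun b _ => hw a' b
        have hDD : 0 ≤ (1 + η) * D := by positivity
        calc (∑ a ∈ A, w a b') * w a' b' * (∑ b ∈ F, w a' b)
            = ((∑ a ∈ A, w a b') * (∑ b ∈ F, w a' b)) * w a' b' := by ring
          _ ≤ (((1 + η) * D) * ((1 + η) * D)) * w a' b' := by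
              apply mul_le_mul_of_nonneg_right _ (hw a' b')
              exact mul_le_mul e1 e2 e2' hDD
          _ = _ := by ring
      calc ∑ b' ∈ C, ∑ a' ∈ Aᶜ, (∑ a ∈ A, w a b') * w a' b' * (∑ b ∈ F, w a' b)
          ≤ ∑ b' ∈ C, ∑ a' ∈ Aᶜ, ((1 + η) * D) ^ 2 * w a' b' :=
            sum_le_sum fun b' hb' => sum_le_sum fun a' ha' => h3 b' hb' a' ha'
        _ = ((1 + η) * D) ^ 2 * X := by
            rw [hX, sum_comm, mul_sum]
            refine sum_congr rfl fun a _ => ?_
            rw [mul_sum]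
    have hlower : P * A.card * F.card
        ≤ ∑ a ∈ A, ∑ b ∈ F, (∑ b', ∑ a', w a b' * w a' b' * w a' b) := by
      calc P * A.card * F.card = ∑ a ∈ A, ∑ b ∈ F, P := by
            simp only [sum_const, nsmul_eq_mul]; ring
        _ ≤ _ := sum_le_sum fun a _ => sum_le_sum fun b _ => hP a b
    have htot : P * A.card * F.card ≤ ((1 + η) * D) ^ 2 * X := hlower.trans hpaths
    have hA' : (0 : ℝ) < A.card := by exact_mod_cast hApos
    have hF' : (0 : ℝ) < F.card := by exact_mod_cast hFpos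
    have hsum : (Fintype.card α : ℝ) ≤ A.card + F.card := by
      have : Fintype.card α ≤ A.card + F.card := by omega
      exact_mod_cast this
    have hsq : 0 ≤ ((1 + η) * D) ^ 2 := by positivity
    -- P * |F| ≤ 2 η (1+η)² D³ and P * |A| ≤ ...
    have hA2 : P * F.card ≤ 2 * η * (1 + η) ^ 2 * D ^ 3 := by
      have : P * F.card * A.card ≤ (2 * η * (1 + η) ^ 2 * D ^ 3) * A.card := by
        calc P * F.card * A.card = P * A.card * F.card := by ring
          _ ≤ ((1 + η) * D) ^ 2 * X := htot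
          _ ≤ ((1 + η) * D) ^ 2 * (2 * η * D * A.card) := mul_le_mul_of_nonneg_left hXA hsq
          _ = _ := by ring
      exact le_of_mul_le_mul_right this hA'
    have hF2 : P * A.card ≤ 2 * η * (1 + η) ^ 2 * D ^ 3 := by
      have : P * A.card * F.card ≤ (2 * η * (1 + η) ^ 2 * D ^ 3) * F.card := by
        calc P * A.card * F.card ≤ ((1 + η) * D) ^ 2 * X := htot
          _ ≤ ((1 + η) * D) ^ 2 * (2 * η * D * F.card) := mul_le_mul_of_nonneg_left hXF hsq
          _ = _ := by ring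
      exact le_of_mul_le_mul_right this hF'
    have : P * Fintype.card α ≤ 4 * η * (1 + η) ^ 2 * D ^ 3 := by
      calc P * Fintype.card α ≤ P * (A.card + F.card) := mul_le_mul_of_nonneg_left hsum hP0
        _ = P * A.card + P * F.card := by ring
        _ ≤ _ := by linarith
    linarith
  obtain ⟨f, hf, hf'⟩ := (Finset.all_card_le_biUnion_card_iff_exists_injective N).1 key
  refine ⟨f, hf, fun a => ?_⟩
  have := hf' a
  simpa [N] using this

end Pool.Agent.Helper67
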