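import Mathlib
import Pool.Agent.Helper67.HallExp
import Pool.Agent.Helper67.Growth

set_option autoImplicit false
set_option linter.unusedSectionVars false

namespace Pool.Agent.Helper67

open Finset

lemma exists_avoid {G ι : Type*} [Fintype G] [Fintype ι] [DecidableEq G] (bad : ι → Finset G)
    (h : (∑ i, ((bad i).card : ℝ)) < Fintype.card G) : ∃ g, ∀ i, g ∉ bad i := by
  by_contra hcon
  push Not at hcon
  have hsub : (univ : Finset G) ⊆ univ.biUnion bad := by
    intro g _
    obtain ⟨i, hi⟩ := hcon g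
    exact mem_biUnion.2 ⟨i, mem_univ _, hi⟩
  have h1 : Fintype.card G ≤ ∑ i, (bad i).card := by
    rw [← card_univ]
    exact (card_le_card hsub).trans card_biUnion_le
  have h2 : (Fintype.card G : ℝ) ≤ ∑ i, ((bad i).card : ℝ) := by exact_mod_cast h1
  linarith

section action

variable {Γ Ω : Type*} [Group Γ] [Fintype Γ] [DecidableEq Γ] [Fintype Ω] [DecidableEq Ω]

lemma avg_act (act : Γ →* Equiv.Perm Ω) (htrans : ∀ x y, ∃ g, act g x = y) (φ : Ω → ℝ) (x : Ω) :
    (Fintype.card Ω : ℝ) * ∑ g : Γ, φ (act g x) = Fintype.card Γ * ∑ y : Ω, φ y := by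
  have h1 : ∀ x y : Ω, ∑ g : Γ, φ (act g x) = ∑ g : Γ, φ (act g y) := by
    intro x y
    obtain ⟨h, rfl⟩ := htrans x y
    refine (Fintype.sum_equiv (Equiv.mulRight h) _ _ (fun g => ?_)).symm
    simp [map_mul]
  calc (Fintype.card Ω : ℝ) * ∑ g : Γ, φ (act g x)
      = ∑ y : Ω, ∑ g : Γ, φ (act g y) := by
        rw [sum_congr rfl (fun y _ => h1 y x), sum_const, nsmul_eq_mul, card_univ]
    _ = ∑ g : Γ, ∑ y : Ω, φ (act g y) := sum_comm
    _ = ∑ g : Γ, ∑ y : Ω, φ y := by
        refine sum_congr rfl fun g _ => ?_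
        exact Equiv.sum_comp (act g) φ
    _ = _ := by rw [sum_const, nsmul_eq_mul, card_univ]

lemma card_act (act : Γ →* Equiv.Perm Ω) (htrans : ∀ x y, ∃ g, act g x = y) (R : Finset Ω)
    (x : Ω) (p : ℝ) (hp : (R.card : ℝ) = p * Fintype.card Ω) :
    ((univ.filter (fun g : Γ => act g x ∈ R)).card : ℝ) = p * Fintype.card Γ := by
  have h := avg_act act htrans (fun y => if y ∈ R then (1 : ℝ) else 0) x
  have hω : (0 : ℝ) < Fintype.card Ω := by
    have : Nonempty Ω := ⟨x⟩
    exact_mod_cast Fintype.card_pos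
  rw [← sum_filter, ← sum_filter, sum_const, sum_const, nsmul_eq_mul, nsmul_eq_mul, mul_one,
    mul_one] at h
  have h2 : univ.filter (fun y => y ∈ R) = R := by ext; simp
  rw [h2, hp] at h
  have : (Fintype.card Ω : ℝ) * ((univ.filter (fun g : Γ => act g x ∈ R)).card : ℝ)
      = Fintype.card Ω * (p * Fintype.card Γ) := by rw [h]; ring
  exact mul_left_cancel₀ hω.ne' this

lemma card_act_inv (act : Γ →* Equiv.Perm Ω) (htrans : ∀ x y, ∃ g, act g x = y) (R : Finset Ω)
    (x : Ω) (p : ℝ) (hp : (R.card : ℝ) = p * Fintype.card Ω) :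
    ((univ.filter (fun g : Γ => (act g)⁻¹ x ∈ R)).card : ℝ) = p * Fintype.card Γ := by
  rw [← card_act act htrans R x p hp]
  congr 1
  refine card_bij (fun g _ => g⁻¹) ?_ ?_ ?_
  · intro g hg
    rw [mem_filter] at hg ⊢
    rw [map_inv]
    exact ⟨mem_univ _, hg.2⟩
  · intro a _ b _ h
    exact inv_injective h
  · intro b hb
    refine ⟨b⁻¹, ?_, inv_inv b⟩
    rw [mem_filter] at hb ⊢
    rw [map_inv, inv_inv]
    exact ⟨mem_univ _, hb.2⟩

/-- preimage of `S` under `act γ` -/
def pre (act : Γ →* Equiv.Perm Ω) (S : Finset Ω) (γ : Γ) : Finset Ω :=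
  univ.filter (fun x => act γ x ∈ S)

lemma card_pre (act : Γ →* Equiv.Perm Ω) (S : Finset Ω) (γ : Γ) :
    (pre act S γ).card = S.card := by
  have : pre act S γ = S.map (act γ)⁻¹.toEmbedding := by
    ext x
    simp only [pre, mem_filter, mem_univ, true_and, mem_map, Equiv.coe_toEmbedding]
    constructor
    · intro h
      exact ⟨act γ x, h, by simp⟩
    · rintro ⟨y, hy, rfl⟩
      simpa using hy
  rw [this, card_map]

lemma sum_pre (act : Γ →* Equiv.Perm Ω) (htrans : ∀ x y, ∃ g, act g x = y) (S R' : Finset Ω) 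
    (hω : (0 : ℝ) < Fintype.card Ω) :
    ∑ γ : Γ, ((pre act S γ ∩ R').card : ℝ)
      = Fintype.card Γ * ((S.card : ℝ) * R'.card / Fintype.card Ω) := by
  have h1 : ∀ γ : Γ, ((pre act S γ ∩ R').card : ℝ)
      = ∑ x ∈ R', (if act γ x ∈ S then (1 : ℝ) else 0) := by
    intro γ
    rw [← sum_filter, sum_const, nsmul_eq_mul, mul_one]
    congr 2
    ext x
    simp [pre, and_comm]
  simp_rw [h1]
  rw [sum_comm]
  have h2 : ∀ x ∈ R', ∑ γ : Γ, (if act γ x ∈ S then (1 : ℝ) else 0)
      = (S.card / Fintype.card Ω) * Fintype.card Γ := by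
    intro x _
    rw [← card_act act htrans S x (S.card / Fintype.card Ω) (by field_simp), ← sum_filter,
      sum_const, nsmul_eq_mul, mul_one]
  rw [sum_congr rfl h2, sum_const, nsmul_eq_mul]
  ring

lemma stage (act : Γ →* Equiv.Perm Ω) (htrans : ∀ x y, ∃ g, act g x = y)
    {J B : Type*} [Fintype J] [Fintype B] (T : J → Finset Γ)
    (S R : B → Finset Ω) (p η ρ m s : ℝ) (t : ℕ) (hp0 : 0 ≤ p) (hη : 0 < η) (hη1 : η ≤ 1)
    (hω : (0 : ℝ) < Fintype.card Ω)
    (hT : ∀ j, ((T j).card : ℝ) = p * Fintype.card Γ)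
    (hm : 0 < m) (hρ : 0 < ρ) (hs0 : 0 ≤ s)
    (hS : ∀ b, m ≤ (S b).card) (hR : ∀ b, ρ * Fintype.card Ω ≤ (R b).card)
    (hs1 : s ≤ ρ * Fintype.card Ω / 2) (hs2 : s ≤ ρ * m * t / 8)
    (hprob : 2 * Fintype.card J * Real.exp (-(t * p * η ^ 2 / 4))
      + Fintype.card B * Real.exp (-(ρ * t / 8)) < 1) :
    ∃ g : Fin t → Γ, (∀ j, (1 - η) * (t * p) ≤ cnt (T j) g ∧ (cnt (T j) g : ℝ) ≤ (1 + η) * (t * p))
      ∧ ∀ b, s ≤ (cov (pre act (S b)) (R b) g).card := by
  classical
  let bad : (J ⊕ J) ⊕ B → Finset (Fin t → Γ) := fun i =>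
    match i with
    | Sum.inl (Sum.inl j) => univ.filter (fun g : Fin t → Γ => (1 + η) * (t * p) < cnt (T j) g)
    | Sum.inl (Sum.inr j) => univ.filter (fun g : Fin t → Γ => (cnt (T j) g : ℝ) < (1 - η) * (t * p))
    | Sum.inr b => univ.filter
        (fun g : Fin t → Γ => ((cov (pre act (S b)) (R b) g).card : ℝ) < s)
  have hG : (Fintype.card (Fin t → Γ) : ℝ) = (Fintype.card Γ : ℝ) ^ t := by
    rw [Fintype.card_fun, Fintype.card_fin]
    push_cast
    rfl
  have hbadsum : (∑ i, ((bad i).card : ℝ)) < Fintype.card (Fin t → Γ) := by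
    rw [Fintype.sum_sum_type, Fintype.sum_sum_type]
    have e1 : ∑ j : J, ((bad (Sum.inl (Sum.inl j))).card : ℝ)
        ≤ Fintype.card J * (Real.exp (-(t * p * η ^ 2 / 4)) * (Fintype.card Γ : ℝ) ^ t) := by
      calc _ ≤ ∑ j : J, (Real.exp (-(t * p * η ^ 2 / 4)) * (Fintype.card Γ : ℝ) ^ t) :=
            sum_le_sum fun j _ => chernoff_upper (T j) t p η (hT j) hp0 hη hη1
        _ = _ := by rw [sum_const, nsmul_eq_mul, card_univ]
    have e2 : ∑ j : J, ((bad (Sum.inl (Sum.inr j))).card : ℝ)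
        ≤ Fintype.card J * (Real.exp (-(t * p * η ^ 2 / 4)) * (Fintype.card Γ : ℝ) ^ t) := by
      calc _ ≤ ∑ j : J, (Real.exp (-(t * p * η ^ 2 / 4)) * (Fintype.card Γ : ℝ) ^ t) :=
            sum_le_sum fun j _ => chernoff_lower (T j) t p η (hT j) hp0 hη hη1
        _ = _ := by rw [sum_const, nsmul_eq_mul, card_univ]
    have e3 : ∑ b : B, ((bad (Sum.inr b)).card : ℝ)
        ≤ Fintype.card B * (Real.exp (-(ρ * t / 8)) * (Fintype.card Γ : ℝ) ^ t) := by
      calc _ ≤ ∑ b : B, (Real.exp (-(ρ * t / 8)) * (Fintype.card Γ : ℝ) ^ t) := by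
            apply sum_le_sum
            intro b _
            have hmb : 0 < ((S b).card : ℝ) := lt_of_lt_of_le hm (hS b)
            have hg := growth (pre act (S b)) (R b) (S b).card (Fintype.card Ω) s hmb hω
              (fun γ => by rw [card_pre]) (fun R' => sum_pre act htrans (S b) R' hω)
              (by have := hR b; linarith) (by exact_mod_cast card_le_univ (R b)) t
            refine hg.trans ?_
            apply mul_le_mul_of_nonneg_right _ (by positivity)
            apply Real.exp_le_exp.2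
            have f1 : s / (S b).card ≤ ρ * t / 8 := by
              rw [div_le_iff₀ hmb]
              calc s ≤ ρ * m * t / 8 := hs2
                _ = (ρ * t / 8) * m := by ring
                _ ≤ (ρ * t / 8) * (S b).card := mul_le_mul_of_nonneg_left (hS b) (by positivity)
            have f2 : ρ / 4 ≤ ((R b).card : ℝ) / (4 * Fintype.card Ω) := by
              rw [div_le_div_iff₀ (by norm_num) (by positivity)]
              have := hR b
              nlinarith
            have f3 : (t : ℝ) * (ρ / 4) ≤ t * (((R b).card : ℝ) / (4 * Fintype.card Ω)) :=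
              mul_le_mul_of_nonneg_left f2 (by positivity)
            linarith
        _ = _ := by rw [sum_const, nsmul_eq_mul, card_univ]
    have hΓ : (0 : ℝ) < (Fintype.card Γ : ℝ) ^ t := by
      have : (0 : ℝ) < Fintype.card Γ := by exact_mod_cast Fintype.card_pos
      positivity
    rw [hG]
    calc _ ≤ Fintype.card J * (Real.exp (-(t * p * η ^ 2 / 4)) * (Fintype.card Γ : ℝ) ^ t)
          + Fintype.card J * (Real.exp (-(t * p * η ^ 2 / 4)) * (Fintype.card Γ : ℝ) ^ t)
          + Fintype.card B * (Real.exp (-(ρ * t / 8)) * (Fintype.card Γ : ℝ) ^ t) := by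
            linarith
      _ = (2 * Fintype.card J * Real.exp (-(t * p * η ^ 2 / 4))
          + Fintype.card B * Real.exp (-(ρ * t / 8))) * (Fintype.card Γ : ℝ) ^ t := by ring
      _ < 1 * (Fintype.card Γ : ℝ) ^ t := by
          apply mul_lt_mul_of_pos_right hprob hΓ
      _ = _ := one_mul _
  obtain ⟨g, hg⟩ := exists_avoid bad hbadsum
  refine ⟨g, fun j => ⟨?_, ?_⟩, fun b => ?_⟩
  · have := hg (Sum.inl (Sum.inr j))
    simp only [bad, mem_filter, mem_univ, true_and, not_lt] at this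
    exact this
  · have := hg (Sum.inl (Sum.inl j))
    simp only [bad, mem_filter, mem_univ, true_and, not_lt] at this
    exact this
  · have := hg (Sum.inr b)
    simp only [bad, mem_filter, mem_univ, true_and, not_lt] at this
    exact this

end action

end Pool.Agent.Helper67
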