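import Mathlib
import Pool.Agent.Helper67.HallExp
import Pool.Agent.Helper67.Growth
import Pool.Agent.Helper67.Stage

set_option autoImplicit false
set_option linter.unusedSectionVars false

namespace Pool.Agent.Helper67

open Finset

section main

variable {Γ Ω : Type*} [Group Γ] [Fintype Γ] [DecidableEq Γ] [Fintype Ω] [DecidableEq Ω]

/-- Given a finite transitive group action and two subsets `E`, `E'` of the same density `p`, there
are `3 t` group elements such that a bijection `E ≃ E'` moves every point by one of them. -/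
theorem exists_matching (act : Γ →* Equiv.Perm Ω) (htrans : ∀ x y, ∃ g, act g x = y)
    (E E' : Finset Ω) (p η : ℝ) (t : ℕ) (hp0 : 0 < p) (hp1 : p ≤ 1) (ht : 0 < t)
    (hω : (0 : ℝ) < Fintype.card Ω)
    (htω : (t : ℝ) ^ 2 ≤ Fintype.card Ω)
    (hE : (E.card : ℝ) = p * Fintype.card Ω) (hE' : (E'.card : ℝ) = p * Fintype.card Ω)
    (hηdef : η = 1 / 100000)
    (hprob : 8 * Fintype.card Ω * Real.exp (-(t * p * η ^ 2 / 4))
      + (Fintype.card Ω : ℝ) ^ 2 * Real.exp (-(p ^ 2 * t ^ 3 / (512 * Fintype.card Ω))) < 1) :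
    ∃ g : Fin 3 × Fin t → Γ, ∃ f : {x // x ∈ E} ≃ {x // x ∈ E'},
      ∀ e, ∃ l, act (g l) e.1 = (f e).1 := by
  classical
  set ω : ℝ := (Fintype.card Ω : ℝ) with hωdef
  have ht' : (0 : ℝ) < t := by exact_mod_cast ht
  have ht1 : (1 : ℝ) ≤ t := by exact_mod_cast ht
  have hη : 0 < η := by rw [hηdef]; norm_num
  have hη1 : η ≤ 1 := by rw [hηdef]; norm_num
  -- the four families of regularity tests
  let T : (Bool × Bool) × Ω → Finset Γ := fun j =>
    univ.filter (fun γ => (if j.1.1 then act γ j.2 else (act γ)⁻¹ j.2) ∈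
      (if j.1.2 then E else E'))
  have hT : ∀ j, ((T j).card : ℝ) = p * Fintype.card Γ := by
    rintro ⟨⟨a, b⟩, x⟩
    cases a <;> cases b <;> simp only [T, if_true, Bool.false_eq_true, if_false]
    · exact card_act_inv act htrans E' x p hE'
    · exact card_act_inv act htrans E x p hE
    · exact card_act act htrans E' x p hE'
    · exact card_act act htrans E x p hE
  have hJ : (Fintype.card ((Bool × Bool) × Ω) : ℝ) = 4 * ω := by
    rw [Fintype.card_prod, Fintype.card_prod, Fintype.card_bool, hωdef]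
    push_cast
    ring
  have hexp0 : 0 < Real.exp (-(t * p * η ^ 2 / 4)) := Real.exp_pos _
  -- stage 1
  set s1 : ℝ := p * t / 8 with hs1
  have hs1pos : 0 < s1 := by positivity
  set s2 : ℝ := p * s1 * t / 8 with hs2
  have hs2pos : 0 < s2 := by positivity
  have hs2' : s2 = p ^ 2 * t ^ 2 / 64 := by rw [hs2, hs1]; ring
  set ρ : ℝ := s2 / ω with hρ
  have hρpos : 0 < ρ := by positivity
  set s3 : ℝ := ρ * 1 * t / 8 with hs3
  have hs3' : s3 = p ^ 2 * t ^ 3 / (512 * ω) := by rw [hs3, hρ, hs2']; field_simp; norm_num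
  have hρt : ρ * t / 8 = p ^ 2 * t ^ 3 / (512 * ω) := by rw [← hs3', hs3, mul_one]
  have hρp : ρ ≤ p := by
    rw [hρ, div_le_iff₀ hω, hs2']
    have : p ^ 2 * t ^ 2 ≤ p * ω := by
      calc p ^ 2 * t ^ 2 = p * (p * t ^ 2) := by ring
        _ ≤ p * (1 * ω) := by
            apply mul_le_mul_of_nonneg_left _ hp0.le
            exact mul_le_mul hp1 htω (by positivity) (by norm_num)
        _ = p * ω := by ring
    nlinarith [mul_pos hp0 hω]
  have hω1 : 1 ≤ ω := by
    have h0 : 0 < Fintype.card Ω := by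
      rw [hωdef] at hω
      exact Nat.cast_pos.1 hω
    rw [hωdef]
    exact_mod_cast h0
  have htω' : (t : ℝ) ≤ ω := by nlinarith
  have hprob3 : 2 * (Fintype.card ((Bool × Bool) × Ω) : ℝ) * Real.exp (-(t * p * η ^ 2 / 4))
      + Fintype.card (Ω × Ω) * Real.exp (-(ρ * t / 8)) < 1 := by
    rw [hJ, hρt, Fintype.card_prod]
    push_cast
    rw [← hωdef]
    calc _ = 8 * ω * Real.exp (-(t * p * η ^ 2 / 4))
      + ω ^ 2 * Real.exp (-(p ^ 2 * t ^ 3 / (512 * ω))) := by ring
      _ < 1 := hprob
  have hprob1 : 2 * (Fintype.card ((Bool × Bool) × Ω) : ℝ) * Real.exp (-(t * p * η ^ 2 / 4))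
      + Fintype.card Ω * Real.exp (-(p * t / 8)) < 1 := by
    refine lt_of_le_of_lt ?_ hprob3
    apply add_le_add le_rfl
    apply mul_le_mul
    · rw [Fintype.card_prod]; push_cast; rw [← hωdef]; nlinarith
    · apply Real.exp_le_exp.2
      have : ρ * t ≤ p * t := mul_le_mul_of_nonneg_right hρp ht'.le
      linarith
    · exact (Real.exp_pos _).le
    · positivity
  obtain ⟨h1, h1reg, h1cov⟩ := stage act htrans T (fun e : Ω => {e}) (fun _ : Ω => E') p η p 1 s1 t
    hp0.le hη hη1 hω hT one_pos hp0 hs1pos.le (fun b => by simp) (fun b => by rw [hE'])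
    (by rw [hs1]; nlinarith [mul_pos hp0 hω]) (by rw [hs1]; linarith) hprob1
  let S1 : Ω → Finset Ω := fun e => cov (pre act {e}) E' h1
  have hS1 : ∀ e, s1 ≤ (S1 e).card := h1cov
  obtain ⟨h2, h2reg, h2cov⟩ := stage act htrans T S1 (fun _ : Ω => E) p η p s1 s2 t
    hp0.le hη hη1 hω hT hs1pos hp0 hs2pos.le hS1 (fun b => by rw [hE])
    (by
      rw [hs2']
      have : p ^ 2 * t ^ 2 ≤ p * ω := by
        calc p ^ 2 * t ^ 2 = p * (p * t ^ 2) := by ring
          _ ≤ p * (1 * ω) := by
              apply mul_le_mul_of_nonneg_left _ hp0.le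
              exact mul_le_mul hp1 htω (by positivity) (by norm_num)
          _ = p * ω := by ring
      nlinarith [mul_pos hp0 hω])
    (by rw [hs2]) hprob1
  let S2 : Ω → Finset Ω := fun e => cov (pre act (S1 e)) E h2
  have hS2 : ∀ e, s2 ≤ (S2 e).card := h2cov
  obtain ⟨h3, h3reg, h3cov⟩ := stage act htrans T (fun b : Ω × Ω => {b.2}) (fun b : Ω × Ω => S2 b.1)
    p η ρ 1 s3 t hp0.le hη hη1 hω hT one_pos hρpos (by positivity) (fun b => by simp)
    (fun b => by
      have : ρ * ω = s2 := by rw [hρ]; field_simp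
      rw [← hωdef, this]; exact hS2 b.1)
    (by
      rw [hs3, ← hωdef]
      nlinarith [mul_pos hρpos hω, mul_le_mul_of_nonneg_left htω' hρpos.le])
    (by rw [hs3]) hprob3
  -- the whole family
  let g : Fin 3 × Fin t → Γ := fun l => if l.1 = 0 then (h1 l.2)⁻¹ else if l.1 = 1 then h2 l.2
    else h3 l.2
  let w : {x // x ∈ E} → {x // x ∈ E'} → ℝ := fun e f =>
    ((univ.filter (fun l : Fin 3 × Fin t => act (g l) e.1 = f.1)).card : ℝ)
  have hw0 : ∀ e f, 0 ≤ w e f := fun e f => by positivity
  -- row sums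
  have hrow : ∀ e : {x // x ∈ E}, ∑ f, w e f
      = ((univ.filter (fun l : Fin 3 × Fin t => act (g l) e.1 ∈ E')).card : ℝ) := by
    intro e
    have : (univ.filter (fun l : Fin 3 × Fin t => act (g l) e.1 ∈ E'))
        = univ.biUnion (fun f : {x // x ∈ E'} =>
          univ.filter (fun l : Fin 3 × Fin t => act (g l) e.1 = f.1)) := by
      ext l
      simp
    rw [this, card_biUnion]
    · push_cast
      rfl
    · intro f _ f' _ hff'
      rw [Function.onFun, Finset.disjoint_left]
      intro l hl hl'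
      rw [mem_filter] at hl hl'
      exact hff' (Subtype.ext (hl.2.symm.trans hl'.2))
  have hcol : ∀ f : {x // x ∈ E'}, ∑ e, w e f
      = ((univ.filter (fun l : Fin 3 × Fin t => (act (g l))⁻¹ f.1 ∈ E)).card : ℝ) := by
    intro f
    have : (univ.filter (fun l : Fin 3 × Fin t => (act (g l))⁻¹ f.1 ∈ E))
        = univ.biUnion (fun e : {x // x ∈ E} =>
          univ.filter (fun l : Fin 3 × Fin t => act (g l) e.1 = f.1)) := by
      ext l
      simp only [mem_filter, mem_univ, true_and, mem_biUnion]
      constructor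
      · intro h
        exact ⟨⟨_, h⟩, by simp⟩
      · rintro ⟨e, he⟩
        rw [← he]
        simp [e.2]
    rw [this, card_biUnion]
    · push_cast
      rfl
    · intro e _ e' _ hee'
      rw [Function.onFun, Finset.disjoint_left]
      intro l hl hl'
      rw [mem_filter] at hl hl'
      exact hee' (Subtype.ext ((act (g l)).injective (hl.2.trans hl'.2.symm)))
  -- splitting the count over the three groups
  have hsplit : ∀ (Q : Γ → Prop) [DecidablePred Q], ((univ.filter (fun l : Fin 3 × Fin t => Q (g l))).card : ℝ)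
      = ((univ.filter (fun i => Q ((h1 i)⁻¹))).card : ℝ)
        + ((univ.filter (fun i => Q (h2 i))).card : ℝ)
        + ((univ.filter (fun i => Q (h3 i))).card : ℝ) := by
    intro Q _
    have e1 : ∀ (ι : Type) [Fintype ι] (P : ι → Prop) [DecidablePred P],
        ((univ.filter P).card : ℝ) = ∑ i, if P i then (1 : ℝ) else 0 := by
      intro ι _ P _
      rw [← sum_filter, sum_const, nsmul_eq_mul, mul_one]
    rw [e1, e1, e1, e1, Fintype.sum_prod_type, Fin.sum_univ_three]
    simp [g]
  have hD : (0 : ℝ) < 3 * (t * p) := by positivity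
  have regrow : ∀ x : Ω, (1 - η) * (3 * (t * p)) ≤
      ((univ.filter (fun l : Fin 3 × Fin t => act (g l) x ∈ E')).card : ℝ) ∧
      ((univ.filter (fun l : Fin 3 × Fin t => act (g l) x ∈ E')).card : ℝ)
        ≤ (1 + η) * (3 * (t * p)) := by
    intro x
    rw [hsplit (fun γ => act γ x ∈ E')]
    have r1 := h1reg ((false, false), x)
    have r2 := h2reg ((true, false), x)
    have r3 := h3reg ((true, false), x)
    simp only [cnt, T, if_true, Bool.false_eq_true, if_false, mem_filter, mem_univ,
      true_and] at r1 r2 r3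
    simp only [map_inv]
    constructor <;> linarith [r1.1, r1.2, r2.1, r2.2, r3.1, r3.2]
  have regcol : ∀ x : Ω, (1 - η) * (3 * (t * p)) ≤
      ((univ.filter (fun l : Fin 3 × Fin t => (act (g l))⁻¹ x ∈ E)).card : ℝ) ∧
      ((univ.filter (fun l : Fin 3 × Fin t => (act (g l))⁻¹ x ∈ E)).card : ℝ)
        ≤ (1 + η) * (3 * (t * p)) := by
    intro x
    rw [hsplit (fun γ => (act γ)⁻¹ x ∈ E)]
    have r1 := h1reg ((true, true), x)
    have r2 := h2reg ((false, true), x)
    have r3 := h3reg ((false, true), x)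
    simp only [cnt, T, if_true, Bool.false_eq_true, if_false, mem_filter, mem_univ,
      true_and] at r1 r2 r3
    simp only [map_inv, inv_inv]
    constructor <;> linarith [r1.1, r1.2, r2.1, r2.2, r3.1, r3.2]
  -- three-edge walks
  have hP : ∀ (e : {x // x ∈ E}) (f : {x // x ∈ E'}),
      s3 ≤ ∑ f', ∑ e', w e f' * w e' f' * w e' f := by
    intro e f
    have hc := h3cov (e.1, f.1)
    refine hc.trans ?_
    rw [sum_comm]
    simp only at hc ⊢
    set Cv := cov (pre act {f.1}) (S2 e.1) h3 with hCv
    have hCvE : ∀ x ∈ Cv, x ∈ E := by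
      intro x hx
      rw [hCv, cov, mem_filter] at hx
      have := hx.1
      simp only [S2, cov, mem_filter] at this
      exact this.1
    have hcard : (Cv.card : ℝ) = ∑ e' : {x // x ∈ E}, if e'.1 ∈ Cv then (1 : ℝ) else 0 := by
      rw [← sum_filter, sum_const, nsmul_eq_mul, mul_one]
      congr 1
      refine card_bij (fun x hx => ⟨x, hCvE x hx⟩) ?_ ?_ ?_
      · intro x hx; simpa using hx
      · intro a _ b _ h; simpa using h
      · intro b hb
        refine ⟨b.1, ?_, rfl⟩
        simpa using hb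
    rw [hcard]
    apply sum_le_sum
    intro e' _
    split_ifs with hmem
    · rw [hCv, cov, mem_filter] at hmem
      obtain ⟨hm2, k, hk⟩ := hmem
      simp only [pre, mem_filter, mem_univ, true_and, mem_singleton] at hk
      simp only [S2, cov, mem_filter, pre, mem_univ, true_and] at hm2
      obtain ⟨_, j, hj⟩ := hm2
      simp only [S1, cov, mem_filter, pre, mem_univ, true_and, mem_singleton] at hj
      obtain ⟨hjE', i, hi⟩ := hj
      have w1 : 1 ≤ w e ⟨act (h2 j) e'.1, hjE'⟩ := by
        simp only [w]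
        have : 0 < (univ.filter (fun l : Fin 3 × Fin t =>
            act (g l) e.1 = act (h2 j) e'.1)).card := by
          apply card_pos.2
          refine ⟨(0, i), ?_⟩
          rw [mem_filter]
          refine ⟨mem_univ _, ?_⟩
          simp only [g, if_true, map_inv]
          rw [← hi]
          simp
        exact_mod_cast this
      have w2 : 1 ≤ w e' ⟨act (h2 j) e'.1, hjE'⟩ := by
        simp only [w]
        have : 0 < (univ.filter (fun l : Fin 3 × Fin t =>
            act (g l) e'.1 = act (h2 j) e'.1)).card := by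
          apply card_pos.2
          refine ⟨(1, j), ?_⟩
          rw [mem_filter]
          refine ⟨mem_univ _, ?_⟩
          simp [g]
        exact_mod_cast this
      have w3 : 1 ≤ w e' f := by
        simp only [w]
        have : 0 < (univ.filter (fun l : Fin 3 × Fin t =>
            act (g l) e'.1 = f.1)).card := by
          apply card_pos.2
          refine ⟨(2, k), ?_⟩
          rw [mem_filter]
          refine ⟨mem_univ _, ?_⟩
          simp [g, hk]
        exact_mod_cast this
      have hprod : 1 ≤ w e ⟨act (h2 j) e'.1, hjE'⟩ * w e' ⟨act (h2 j) e'.1, hjE'⟩ * w e' f := by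
        have h12 : 1 ≤ w e ⟨act (h2 j) e'.1, hjE'⟩ * w e' ⟨act (h2 j) e'.1, hjE'⟩ := by
          nlinarith
        nlinarith
      refine hprod.trans ?_
      exact single_le_sum (f := fun f' => w e f' * w e' f' * w e' f)
        (fun f' _ => mul_nonneg (mul_nonneg (hw0 _ _) (hw0 _ _)) (hw0 _ _)) (mem_univ _)
    · exact sum_nonneg fun f' _ => mul_nonneg (mul_nonneg (hw0 _ _) (hw0 _ _)) (hw0 _ _)
  have hcardEE' : Fintype.card {x // x ∈ E} = Fintype.card {x // x ∈ E'} := by
    rw [Fintype.card_coe, Fintype.card_coe]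
    have : (E.card : ℝ) = E'.card := by rw [hE, hE']
    exact_mod_cast this
  obtain ⟨f, hf, hf'⟩ := hall_of_expansion hcardEE' w hw0 (3 * (t * p)) η s3 hη.le hD
    (by positivity)
    (fun e => by rw [hrow]; exact (regrow e.1).1) (fun e => by rw [hrow]; exact (regrow e.1).2)
    (fun e => by rw [hcol]; exact (regcol e.1).1) (fun e => by rw [hcol]; exact (regcol e.1).2)
    hP
    (by
      rw [Fintype.card_coe, hE, hs3', hηdef]
      have e1 : p ^ 2 * (t : ℝ) ^ 3 / (512 * ω) * (p * ω) = p ^ 3 * t ^ 3 / 512 := by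
        field_simp
      rw [e1]
      have : 0 < p ^ 3 * (t : ℝ) ^ 3 := by positivity
      nlinarith)
  refine ⟨g, Equiv.ofBijective f ((Fintype.bijective_iff_injective_and_card f).2 ⟨hf, hcardEE'⟩),
    fun e => ?_⟩
  have := hf' e
  simp only [w] at this
  have h0 : (univ.filter (fun l : Fin 3 × Fin t => act (g l) e.1 = (f e).1)).card ≠ 0 := by
    exact_mod_cast this
  obtain ⟨l, hl⟩ := card_pos.1 (Nat.pos_of_ne_zero h0)
  rw [mem_filter] at hl
  exact ⟨l, hl.2⟩

end main

end Pool.Agent.Helper67
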